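import Pool.Agent.V11245.KDefs

/-!
# All branch sets of `ℵ₂`-Kurepa trees can be continuous images
-/

set_option autoImplicit false

namespace Pool.Agent.Results.MP_5c1789_lc.AllContinuousImages

open Cardinal Set Pool.Agent.V11245.OmegaPerf Pool.Agent.V11245.KTree

universe u

/-- Every nonempty subset of `^{ω₂}ω₂` of size at most `2^ℵ₁` is a continuous image of `^{ω₂}ω₂`.
Hence, if `2^ℵ₁ = 2^ℵ₂`, then the branch set of every `ℵ₂`-Kurepa tree is a continuous image of
`^{ω₂}ω₂`. -/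
theorem result :
    (∀ A : Set (Pt (ℵ_ 2 : Cardinal.{u})), A.Nonempty →
      #A ≤ (2 : Cardinal.{u}) ^ (ℵ_ 1 : Cardinal.{u}) → IsContImage A) ∧
    ((2 : Cardinal.{u}) ^ (ℵ_ 1 : Cardinal.{u}) = 2 ^ (ℵ_ 2 : Cardinal.{u}) →
      ∀ T : Set (Node (ℵ_ 2 : Cardinal.{u})), IsKurepa T → IsContImage (body T)) := by
  refine ⟨fun A hne hA => contImage_of_small hne hA, fun h T hT => ?_⟩
  apply contImage_of_card_eq h
  rw [nonempty_iff_ne_empty]
  intro he
  have := hT.many
  rw [he] at this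
  simp at this

end Pool.Agent.Results.MP_5c1789_lc.AllContinuousImages
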